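import Mathlib

set_option autoImplicit false
set_option linter.unusedSectionVars false
set_option linter.unusedSimpArgs false

namespace Pool.Agent.HdR

/-!
# The local Hodge–de Rham homology spectral sequence need not degenerate at `E_2`

Let `k` be a field of characteristic zero, `R = k[[x_0, ..., x_5]]`, `X = Spec R`,
`q = x_0 x_3 + x_1 x_4 + x_2 x_5`, `I = (q x_3, q x_4)` and `Y = V(I)` (a quadric cone together with
the linear subspace `x_3 = x_4 = 0`). The complete local ring `A = R / I` has coefficient field `k`.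
We show that for `R ↠ A` the differential `d_2 : E_2^{4,2} → E_2^{6,1}` of the local Hodge–de Rham
homology spectral sequence `E_1^{p,q} = H^q_Y(X, Ω^p) ⇒ H^{p+q}_Y(X, Ω^•)` is nonzero.

The hypercohomology with supports in `Y = V(f_1, ..., f_m)` is computed by the total complex of the
Čech–de Rham double complex with terms `R_{f_S} ⊗ Ω^p` (`S` a set of indices, `f_S = ∏_{i ∈ S} f_i`,
Čech degree `|S|`), and the stupid filtration of `Ω^•` is the filtration by de Rham degree.
-/


/-! ## Filtered complexes and their spectral sequences -/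

/-- A filtered cochain complex of `k`-vector spaces, given by an ambient space `C` with an
endomorphism `D` of square zero, the subspaces `Gr l` (the degree `l` part of the complex) and the
decreasing filtration `F p`, with `D (Gr l) ⊆ Gr (l+1)` and `D (F p) ⊆ F p`. -/
structure FilteredComplex (k : Type*) [Field k] (C : Type*) [AddCommGroup C] [Module k C] where
  /-- the differential -/
  D : C →ₗ[k] C
  /-- the degree `l` part -/
  Gr : ℤ → Submodule k C
  /-- the filtration -/
  F : ℤ → Submodule k C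
  D_D : ∀ x, D (D x) = 0
  D_Gr : ∀ l x, x ∈ Gr l → D x ∈ Gr (l + 1)
  D_F : ∀ p x, x ∈ F p → D x ∈ F p
  F_anti : Antitone F

namespace FilteredComplex

variable {k : Type*} [Field k] {C : Type*} [AddCommGroup C] [Module k C]
  (X : FilteredComplex k C)

/-- `Z_r^{p}` in total degree `l`: the elements `x` of `F^p` of degree `l` with `D x ∈ F^{p+r}`. -/
def Z (r p l : ℤ) : Submodule k C :=
  X.Gr l ⊓ X.F p ⊓ (X.F (p + r)).comap X.D

/-- The denominator of `E_r^{p}` in total degree `l`: `Z_{r-1}^{p+1} + D Z_{r-1}^{p-r+1}`. -/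
def B (r p l : ℤ) : Submodule k C :=
  X.Z (r - 1) (p + 1) l ⊔ (X.Z (r - 1) (p - r + 1) (l - 1)).map X.D

/-- The page `E_r^{p,q}` with `p + q = l` of the spectral sequence of the filtered complex:
`E_r^p = Z_r^p / (Z_{r-1}^{p+1} + D Z_{r-1}^{p-r+1})` in total degree `l`. -/
abbrev E (r p l : ℤ) : Type _ := ↥(X.Z r p l) ⧸ (X.B r p l).comap (X.Z r p l).subtype

theorem mem_Z {r p l : ℤ} {x : C} :
    x ∈ X.Z r p l ↔ x ∈ X.Gr l ∧ x ∈ X.F p ∧ X.D x ∈ X.F (p + r) := by
  simp [Z, and_assoc]

theorem D_mem_Z {r p l : ℤ} {x : C} (hx : x ∈ X.Z r p l) (s : ℤ) :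
    X.D x ∈ X.Z s (p + r) (l + 1) := by
  rw [mem_Z] at hx ⊢
  refine ⟨X.D_Gr _ _ hx.1, hx.2.2, ?_⟩
  rw [X.D_D]
  exact Submodule.zero_mem _

/-- The map `Z_r^p → Z_r^{p+r}` induced by `D`. -/
def dZ (r p l : ℤ) : ↥(X.Z r p l) →ₗ[k] ↥(X.Z r (p + r) (l + 1)) :=
  X.D.restrict fun _ hx => X.D_mem_Z hx r

/-- The differential `d_r : E_r^{p,q} → E_r^{p+r,q-r+1}` (`p + q = l`) of the spectral sequence of
the filtered complex; it is the map induced by `D`. -/
def d (r p l : ℤ) : X.E r p l →ₗ[k] X.E r (p + r) (l + 1) :=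
  Submodule.mapQ _ _ (X.dZ r p l) <| by
    intro x hx
    simp only [Submodule.mem_comap, Submodule.subtype_apply] at hx ⊢
    obtain ⟨u, hu, v, hv, huv⟩ := Submodule.mem_sup.mp hx
    obtain ⟨w, hw, rfl⟩ := hv
    have h1 : ((X.dZ r p l) x : C) = X.D u := by
      change X.D (x : C) = X.D u
      rw [← huv, map_add, X.D_D, add_zero]
    rw [h1]
    refine Submodule.mem_sup_right ⟨u, ?_, rfl⟩
    have e1 : p + r - r + 1 = p + 1 := by ring
    have e2 : l + 1 - 1 = l := by ring
    rw [e1, e2]
    exact hu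

/-- Degeneration at `E_2`: every differential `d_r` with `r ≥ 2` is zero. -/
def DegeneratesAtE2 : Prop := ∀ r : ℤ, 2 ≤ r → ∀ p l : ℤ, X.d r p l = 0

theorem d_eq_zero_iff (r p l : ℤ) :
    X.d r p l = 0 ↔ ∀ x ∈ X.Z r p l, X.D x ∈ X.B r (p + r) (l + 1) := by
  constructor
  · intro h x hx
    have := congrArg (fun φ => φ (Submodule.Quotient.mk ⟨x, hx⟩)) h
    simp only [LinearMap.zero_apply] at this
    rw [d, Submodule.mapQ_apply, Submodule.Quotient.mk_eq_zero] at this
    exact this
  · intro h
    apply LinearMap.ext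
    intro y
    obtain ⟨x, rfl⟩ := Submodule.Quotient.mk_surjective _ y
    rw [d, Submodule.mapQ_apply, LinearMap.zero_apply, Submodule.Quotient.mk_eq_zero]
    exact h x.1 x.2

end FilteredComplex

/-! ## Localisations, the extended derivations, and the Čech–de Rham complex -/

section Frac

variable {k A K : Type*} [Field k] [CommRing A] [IsDomain A] [Algebra k A]
  [Field K] [Algebra A K] [IsFractionRing A K]

/-- The quotient rule on the fraction field `K` of a domain `A` with a derivation `D`: for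
`a = r / s` (a chosen representation) this is `(D r * s - r * D s) / s^2`. -/
noncomputable def quotRule (D : Derivation k A A) (a : K) : K :=
  (algebraMap A K (D (IsLocalization.sec (nonZeroDivisors A) a).1) *
      algebraMap A K (IsLocalization.sec (nonZeroDivisors A) a).2 -
    algebraMap A K (IsLocalization.sec (nonZeroDivisors A) a).1 *
      algebraMap A K (D (IsLocalization.sec (nonZeroDivisors A) a).2)) /
    (algebraMap A K (IsLocalization.sec (nonZeroDivisors A) a).2) ^ 2

end Frac

section CechDeRham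

/-- `PS k n` is the power series ring `R = k[[x_0, ..., x_{n-1}]]`. -/
abbrev PS (k : Type*) [Field k] (n : ℕ) : Type _ := MvPowerSeries (Fin n) k

instance instIsDomainPS (k : Type*) [Field k] (n : ℕ) : IsDomain (PS k n) :=
  NoZeroDivisors.to_isDomain _

variable (k : Type*) [Field k] (n m : ℕ)
  (K : Type*) [Field K] [Algebra (PS k n) K] [IsFractionRing (PS k n) K]
  [Algebra k K] [IsScalarTower k (PS k n) K]

variable {K} in
/-- The derivative `∂/∂x_i` on the fraction field `K` of `R = k[[x_0, ..., x_{n-1}]]`, extended from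
`R` by the quotient rule. -/
noncomputable def dd (i : Fin n) (a : K) : K :=
  quotRule (MvPowerSeries.pderiv k i) a

variable {k n K}

variable (K) in
/-- The localisation `R_g = R[1/g]` of `R` at a nonzero `g`, as a subspace of the fraction field. -/
def Loc (g : PS k n) : Submodule k K where
  carrier := {a | ∃ (e : ℕ) (r : PS k n), a * algebraMap (PS k n) K (g ^ e) = algebraMap (PS k n) K r}
  zero_mem' := ⟨0, 0, by simp⟩
  add_mem' := by
    rintro a b ⟨e, r, h⟩ ⟨e', r', h'⟩
    refine ⟨e + e', r * g ^ e' + r' * g ^ e, ?_⟩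
    rw [pow_add, map_mul, map_add, map_mul, map_mul, ← h, ← h']
    ring
  smul_mem' := by
    rintro c a ⟨e, r, h⟩
    refine ⟨e, c • r, ?_⟩
    rw [Algebra.smul_mul_assoc, h, Algebra.algebraMap_eq_smul_one, Algebra.algebraMap_eq_smul_one,
      smul_assoc]

variable (K n) in
/-- Cochains of the Čech–de Rham double complex: `ω S T` is the coefficient of
`dx_T = ∏_{t ∈ T} dx_t` (in increasing order) in the component over `R_{f_S}`,
`f_S = ∏_{i ∈ S} f_i`. -/
abbrev Cochain (m : ℕ) : Type _ := Finset (Fin m) → Finset (Fin n) → K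

variable (k) {m} in
/-- The value of the total differential `D = δ + (-1)^q d` at `(S, T)`. Here
`(δω)_{S,T} = ∑_{i ∈ S} (-1)^{#{i' ∈ S, i' < i}} ω_{S \ {i}, T}` is the Čech differential, `q = |S|`
and `(dω)_{S,T} = ∑_{j ∈ T} (-1)^{#{j' ∈ T, j' < j}} ∂_j ω_{S, T \ {j}}` is the exterior
derivative. -/
noncomputable def totFun (ω : Cochain n K m) (S : Finset (Fin m)) (T : Finset (Fin n)) : K :=
  (∑ i ∈ S, (-1 : k) ^ (S.filter (· < i)).card • ω (S.erase i) T) +
    (-1 : k) ^ S.card •
      ∑ j ∈ T, (-1 : k) ^ (T.filter (· < j)).card • dd k n j (ω S (T.erase j))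

variable {m}

variable (K) in
/-- The degree `l` part of the Čech–de Rham complex of the family `f`: cochains `ω` with
`ω S T ∈ R_{f_S}` for all `S, T`, supported on `|S| + |T| = l`. -/
def GrPart (f : Fin m → PS k n) (l : ℤ) : Submodule k (Cochain n K m) where
  carrier := {ω | ∀ S T, ω S T ∈ Loc K (∏ i ∈ S, f i) ∧ ((S.card + T.card : ℤ) ≠ l → ω S T = 0)}
  zero_mem' := fun S T => ⟨Submodule.zero_mem _, fun _ => rfl⟩
  add_mem' := by
    intro ω η hω hη S T
    refine ⟨Submodule.add_mem _ (hω S T).1 (hη S T).1, fun h => ?_⟩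
    rw [Pi.add_apply, Pi.add_apply, (hω S T).2 h, (hη S T).2 h, add_zero]
  smul_mem' := by
    intro c ω hω S T
    refine ⟨Submodule.smul_mem _ c (hω S T).1, fun h => ?_⟩
    rw [Pi.smul_apply, Pi.smul_apply, (hω S T).2 h, smul_zero]

variable (k n m K) in
/-- The filtration by de Rham degree: `F^p` consists of the cochains with `ω S T = 0` for
`|T| < p`. -/
def Fil (p : ℤ) : Submodule k (Cochain n K m) where
  carrier := {ω | ∀ S T, (T.card : ℤ) < p → ω S T = 0}
  zero_mem' := fun _ _ _ => rfl
  add_mem' := by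
    intro ω η hω hη S T h
    rw [Pi.add_apply, Pi.add_apply, hω S T h, hη S T h, add_zero]
  smul_mem' := by
    intro c ω hω S T h
    rw [Pi.smul_apply, Pi.smul_apply, hω S T h, smul_zero]

end CechDeRham

section Quadric

variable (k : Type*) [Field k]

/-- The quadratic form `q = x_0 x_3 + x_1 x_4 + x_2 x_5` in `k[[x_0, ..., x_5]]`. -/
noncomputable def quad : PS k 6 :=
  MvPowerSeries.X 0 * MvPowerSeries.X 3 + MvPowerSeries.X 1 * MvPowerSeries.X 4 +
    MvPowerSeries.X 2 * MvPowerSeries.X 5

/-- The two power series `q x_3` and `q x_4`, where `q = x_0 x_3 + x_1 x_4 + x_2 x_5`. -/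
noncomputable def gens : Fin 2 → PS k 6 :=
  ![quad k * MvPowerSeries.X 3, quad k * MvPowerSeries.X 4]

end Quadric

end Pool.Agent.HdR
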