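import Pool.Agent.HdR.Lemmas

set_option autoImplicit false
set_option linter.unusedSectionVars false
set_option linter.unusedSimpArgs false

namespace Pool.Agent.HdR

section CechDeRham

variable {k : Type*} [Field k] {n m : ℕ}
  {K : Type*} [Field K] [Algebra (PS k n) K] [IsFractionRing (PS k n) K]
  [Algebra k K] [IsScalarTower k (PS k n) K]

variable (k n m K) in
/-- The total differential `D = δ + (-1)^q d` of the Čech–de Rham complex. -/
noncomputable def totD : Cochain n K m →ₗ[k] Cochain n K m where
  toFun ω := totFun k ω
  map_add' ω η := by funext S T; exact totFun_add ω η S T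
  map_smul' c ω := by funext S T; exact totFun_smul c ω S T

variable (K) in
/-- The Čech–de Rham complex of nonzero `f_1, ..., f_m ∈ R = k[[x_0, ..., x_{n-1}]]`, with the
filtration by de Rham degree. It computes `RΓ_Y(X, Ω^•)` for `X = Spec R`, `Y = V(f_1, ..., f_m)`,
and its filtration is the one induced by the stupid filtration of `Ω^•`. The spectral sequence of
this filtered complex is the local Hodge–de Rham homology spectral sequence
`E_1^{p,q} = H^q_Y(X, Ω^p) ⇒ H^{p+q}_Y(X, Ω^•)`. -/
noncomputable def hodgeDeRham (f : Fin m → PS k n) (hf : ∀ i, f i ≠ 0) :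
    FilteredComplex k (Cochain n K m) where
  D := totD k n m K
  Gr := GrPart K f
  F := Fil k n m K
  D_D := totFun_totFun
  D_Gr := totFun_mem_Gr f hf
  D_F := totFun_mem_Fil
  F_anti := Fil_antitone k n m K

variable (k : Type*) [Field k]

theorem gens_ne_zero (i : Fin 2) : gens k i ≠ 0 := by
  fin_cases i
  · exact mul_ne_zero (quad_ne_zero k) (X_ne_zero' k 3)
  · exact mul_ne_zero (quad_ne_zero k) (X_ne_zero' k 4)

end CechDeRham

end Pool.Agent.HdR
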