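import Pool.Agent.HdR.Basic

set_option autoImplicit false
set_option linter.unusedSectionVars false
set_option linter.unusedSimpArgs false

namespace Pool.Agent.HdR

section Frac

variable {k A K : Type*} [Field k] [CommRing A] [IsDomain A] [Algebra k A]
  [Field K] [Algebra A K] [IsFractionRing A K]

theorem quotRule_eq (D : Derivation k A A) (a : K) (r s : A) (hs : s ≠ 0)
    (h : a * algebraMap A K s = algebraMap A K r) :
    quotRule D a = (algebraMap A K (D r) * algebraMap A K s -
      algebraMap A K r * algebraMap A K (D s)) / (algebraMap A K s) ^ 2 := by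
  have inj : Function.Injective (algebraMap A K) :=
    IsFractionRing.injective A K
  set r0 := (IsLocalization.sec (nonZeroDivisors A) a).1 with hr0
  set s0 : A := ((IsLocalization.sec (nonZeroDivisors A) a).2 : A) with hs0
  have hs0' : s0 ≠ 0 := nonZeroDivisors.ne_zero (IsLocalization.sec (nonZeroDivisors A) a).2.2
  have h0 : a * algebraMap A K s0 = algebraMap A K r0 :=
    IsLocalization.sec_spec (nonZeroDivisors A) a
  have hsK : algebraMap A K s ≠ 0 := by
    rw [Ne, map_eq_zero_iff _ inj]; exact hs
  have hs0K : algebraMap A K s0 ≠ 0 := by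
    rw [Ne, map_eq_zero_iff _ inj]; exact hs0'
  have hcross : r0 * s = r * s0 := by
    apply inj
    rw [map_mul, map_mul, ← h0, ← h]; ring
  have hD : D r0 * s + r0 * D s = D r * s0 + r * D s0 := by
    have := congrArg D hcross
    simp only [Derivation.leibniz, smul_eq_mul] at this
    linear_combination this
  have hcK : algebraMap A K r0 * algebraMap A K s =
      algebraMap A K r * algebraMap A K s0 := by
    rw [← map_mul, ← map_mul, hcross]
  have hDK : algebraMap A K (D r0) * algebraMap A K s +
      algebraMap A K r0 * algebraMap A K (D s) =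
      algebraMap A K (D r) * algebraMap A K s0 + algebraMap A K r * algebraMap A K (D s0) := by
    rw [← map_mul, ← map_mul, ← map_mul, ← map_mul, ← map_add, ← map_add, hD]
  change (algebraMap A K (D r0) * algebraMap A K s0 -
    algebraMap A K r0 * algebraMap A K (D s0)) /
    (algebraMap A K s0) ^ 2 = _
  rw [div_eq_div_iff (pow_ne_zero 2 hs0K) (pow_ne_zero 2 hsK)]
  linear_combination (algebraMap A K s0 * algebraMap A K s) * hDK -
    (algebraMap A K (D s0) * algebraMap A K s +
      algebraMap A K (D s) * algebraMap A K s0) * hcK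

variable (A) in
theorem exists_rep (a : K) : ∃ r s : A, s ≠ 0 ∧ a * algebraMap A K s = algebraMap A K r :=
  ⟨_, _, nonZeroDivisors.ne_zero (IsLocalization.sec (nonZeroDivisors A) a).2.2,
    IsLocalization.sec_spec (nonZeroDivisors A) a⟩

variable [Algebra k K] [IsScalarTower k A K]

theorem quotRule_add (D : Derivation k A A) (a b : K) :
    quotRule D (a + b) = quotRule D a + quotRule D b := by
  have inj : Function.Injective (algebraMap A K) := IsFractionRing.injective A K
  obtain ⟨r, s, hs, h⟩ := exists_rep A a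
  obtain ⟨r', s', hs', h'⟩ := exists_rep A b
  have hsK : algebraMap A K s ≠ 0 := by
    rw [Ne, map_eq_zero_iff _ inj]; exact hs
  have hsK' : algebraMap A K s' ≠ 0 := by
    rw [Ne, map_eq_zero_iff _ inj]; exact hs'
  rw [quotRule_eq D a r s hs h, quotRule_eq D b r' s' hs' h',
    quotRule_eq D (a + b) (r * s' + r' * s) (s * s') (mul_ne_zero hs hs') (by
      simp only [map_mul, map_add]
      linear_combination (algebraMap A K s') * h + (algebraMap A K s) * h')]
  simp only [Derivation.leibniz, smul_eq_mul, map_add, map_mul]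
  field_simp
  ring

theorem algebraMap_smul' (c : k) (x : A) : algebraMap A K (c • x) = c • algebraMap A K x := by
  rw [Algebra.algebraMap_eq_smul_one, Algebra.algebraMap_eq_smul_one, smul_assoc]

theorem quotRule_smul (D : Derivation k A A) (c : k) (a : K) :
    quotRule D (c • a) = c • quotRule D a := by
  obtain ⟨r, s, hs, h⟩ := exists_rep A a
  rw [quotRule_eq D a r s hs h, quotRule_eq D (c • a) (c • r) s hs (by
      rw [Algebra.smul_mul_assoc, h, algebraMap_smul'])]
  simp only [Derivation.map_smul, algebraMap_smul', Algebra.smul_mul_assoc]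
  rw [← smul_sub, smul_div_assoc]

end Frac

section Alt

variable {k J V : Type*} [Field k] [LinearOrder J] [AddCommGroup V] [Module k V]

/-- The alternating operator attached to a family `A` of endomorphisms:
`(alt A ω) T = ∑_{j ∈ T} (-1)^{#{i ∈ T | i < j}} A_j (ω (T \ {j}))`. -/
def alt (A : J → V →ₗ[k] V) : (Finset J → V) →ₗ[k] (Finset J → V) where
  toFun ω T := ∑ j ∈ T, (-1 : k) ^ (T.filter (· < j)).card • A j (ω (T.erase j))
  map_add' ω η := by
    funext T
    simp only [Pi.add_apply, map_add, smul_add, Finset.sum_add_distrib]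
  map_smul' c ω := by
    funext T
    simp only [Pi.smul_apply, map_smul, RingHom.id_apply, Finset.smul_sum]
    refine Finset.sum_congr rfl fun j _ => ?_
    rw [smul_comm]

theorem alt_apply (A : J → V →ₗ[k] V) (ω : Finset J → V) (T : Finset J) :
    alt A ω T = ∑ j ∈ T, (-1 : k) ^ (T.filter (· < j)).card • A j (ω (T.erase j)) := rfl

theorem card_filter_erase (T : Finset J) (i j : J) (hj : j ∈ T) :
    (T.filter (· < i)).card = ((T.erase j).filter (· < i)).card + (if j < i then 1 else 0) := by
  rw [Finset.filter_erase]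
  split_ifs with h
  · rw [Finset.card_erase_of_mem (by simp [hj, h])]
    have : 0 < (T.filter (· < i)).card := Finset.card_pos.mpr ⟨j, by simp [hj, h]⟩
    omega
  · rw [Finset.erase_eq_of_notMem (by simp [h])]
    rfl

theorem alt_alt (A : J → V →ₗ[k] V) (hA : ∀ i j v, A i (A j v) = A j (A i v))
    (ω : Finset J → V) : alt A (alt A ω) = 0 := by
  funext T
  rw [alt_apply, Pi.zero_apply]
  have key : ∑ j ∈ T, (-1 : k) ^ (T.filter (· < j)).card • A j (alt A ω (T.erase j)) =
      ∑ p ∈ T.offDiag, ((-1 : k) ^ ((T.filter (· < p.1)).card +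
        ((T.erase p.1).filter (· < p.2)).card)) • A p.1 (A p.2 (ω ((T.erase p.1).erase p.2))) := by
    have : T.offDiag = T.biUnion fun j => (T.erase j).image fun i => (j, i) := by
      ext ⟨a, b⟩
      simp only [Finset.mem_offDiag, Finset.mem_biUnion, Finset.mem_image, Finset.mem_erase,
        Prod.mk.injEq]
      constructor
      · rintro ⟨h1, h2, h3⟩
        exact ⟨a, h1, b, ⟨fun h => h3 h.symm, h2⟩, rfl, rfl⟩
      · rintro ⟨j, hj, i, ⟨h1, h2⟩, rfl, rfl⟩
        exact ⟨hj, h2, fun h => h1 h.symm⟩
    rw [this, Finset.sum_biUnion]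
    · refine Finset.sum_congr rfl fun j _ => ?_
      rw [Finset.sum_image (by intro a _ b _ h; exact (Prod.mk.inj h).2), alt_apply, map_sum,
        Finset.smul_sum]
      refine Finset.sum_congr rfl fun i _ => ?_
      rw [map_smul, smul_smul, pow_add]
    · intro a _ b _ hab
      simp only [Function.onFun]
      rw [Finset.disjoint_left]
      rintro ⟨x, y⟩ h1 h2
      simp only [Finset.mem_image, Prod.mk.injEq] at h1 h2
      obtain ⟨_, _, h1, _⟩ := h1
      obtain ⟨_, _, h2, _⟩ := h2
      exact hab (h1.trans h2.symm)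
  rw [key]
  refine Finset.sum_involution (fun p _ => p.swap) ?_ ?_ ?_ ?_
  · rintro ⟨j, i⟩ hp
    simp only [Finset.mem_offDiag] at hp
    obtain ⟨hj, hi, hne⟩ := hp
    simp only [Prod.swap_prod_mk]
    rw [hA i j, Finset.erase_right_comm (a := i) (b := j), ← add_smul]
    have h1 := card_filter_erase T i j hj
    have h2 := card_filter_erase T j i hi
    rcases lt_or_gt_of_ne hne with h | h
    · rw [if_pos h] at h1
      rw [if_neg (not_lt.mpr h.le)] at h2
      have : (-1 : k) ^ ((T.filter (· < j)).card + ((T.erase j).filter (· < i)).card) +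
          (-1 : k) ^ ((T.filter (· < i)).card + ((T.erase i).filter (· < j)).card) = 0 := by
        rw [h1, h2]
        ring
      rw [this, zero_smul]
    · rw [if_neg (not_lt.mpr h.le)] at h1
      rw [if_pos h] at h2
      have : (-1 : k) ^ ((T.filter (· < j)).card + ((T.erase j).filter (· < i)).card) +
          (-1 : k) ^ ((T.filter (· < i)).card + ((T.erase i).filter (· < j)).card) = 0 := by
        rw [h1, h2]
        ring
      rw [this, zero_smul]
  · rintro ⟨j, i⟩ hp _ h
    simp only [Finset.mem_offDiag] at hp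
    simp only [Prod.swap_prod_mk, Prod.mk.injEq] at h
    exact hp.2.2 h.2
  · rintro ⟨j, i⟩ hp
    simp only [Finset.mem_offDiag] at hp ⊢
    exact ⟨hp.2.1, hp.1, fun h => hp.2.2 h.symm⟩
  · rintro ⟨j, i⟩ _
    rfl

end Alt

section CechDeRham

variable (k : Type*) [Field k] (n m : ℕ)
  (K : Type*) [Field K] [Algebra (PS k n) K] [IsFractionRing (PS k n) K]
  [Algebra k K] [IsScalarTower k (PS k n) K]

/-- `dd` as a linear map. -/
noncomputable def ddL (i : Fin n) : K →ₗ[k] K where
  toFun := dd k n i
  map_add' := quotRule_add _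
  map_smul' := quotRule_smul _

variable {k n K}

theorem dd_add (i : Fin n) (a b : K) : dd k n i (a + b) = dd k n i a + dd k n i b :=
  quotRule_add _ _ _

theorem dd_smul (i : Fin n) (c : k) (a : K) : dd k n i (c • a) = c • dd k n i a :=
  quotRule_smul _ _ _

theorem dd_zero (i : Fin n) : dd k n i (0 : K) = 0 := (ddL k n K i).map_zero

theorem dd_neg (i : Fin n) (a : K) : dd k n i (-a) = - dd k n i a := (ddL k n K i).map_neg a

theorem dd_sum {ι : Type*} (s : Finset ι) (i : Fin n) (a : ι → K) :
    dd k n i (∑ j ∈ s, a j) = ∑ j ∈ s, dd k n i (a j) := map_sum (ddL k n K i) _ _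

theorem Loc_le_mul (g h : PS k n) : Loc K g ≤ Loc K (h * g) := by
  rintro a ⟨e, r, ha⟩
  refine ⟨e, h ^ e * r, ?_⟩
  rw [mul_pow, map_mul, map_mul, ← ha]
  ring

variable {m}

theorem totFun_add (ω η : Cochain n K m) (S : Finset (Fin m)) (T : Finset (Fin n)) :
    totFun k (ω + η) S T = totFun k ω S T + totFun k η S T := by
  simp only [totFun, Pi.add_apply, dd_add, smul_add, Finset.sum_add_distrib]
  abel

theorem totFun_smul (c : k) (ω : Cochain n K m) (S : Finset (Fin m)) (T : Finset (Fin n)) :
    totFun k (c • ω) S T = c • totFun k ω S T := by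
  simp only [totFun, Pi.smul_apply, dd_smul, smul_add, Finset.smul_sum]
  congr 1
  · exact Finset.sum_congr rfl fun _ _ => smul_comm _ _ _
  · refine Finset.sum_congr rfl fun _ _ => ?_
    rw [smul_comm c, smul_comm c]

theorem totFun_apply (ω : Cochain n K m) (S : Finset (Fin m)) (T : Finset (Fin n)) :
    totFun k ω S T = (∑ i ∈ S, (-1 : k) ^ (S.filter (· < i)).card • ω (S.erase i) T) +
      (-1 : k) ^ S.card •
        ∑ j ∈ T, (-1 : k) ^ (T.filter (· < j)).card • dd k n j (ω S (T.erase j)) := rfl

variable (k) in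
/-- The exterior derivative. -/
noncomputable def extD (ω : Cochain n K m) : Cochain n K m := fun S => alt (ddL k n K) (ω S)

variable (k) in
/-- The Čech differential. -/
noncomputable def cechD (ω : Cochain n K m) : Cochain n K m :=
  alt (k := k) (V := Finset (Fin n) → K) (fun _ => LinearMap.id) ω

variable (k) in
/-- The sign. -/
noncomputable def sgnD (ω : Cochain n K m) : Cochain n K m := fun S T => (-1 : k) ^ S.card • ω S T

theorem dd_eq (i : Fin n) (a : K) (r s : PS k n) (hs : s ≠ 0)
    (h : a * algebraMap (PS k n) K s = algebraMap (PS k n) K r) :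
    dd k n i a = (algebraMap (PS k n) K (MvPowerSeries.pderiv k i r) *
      algebraMap (PS k n) K s - algebraMap (PS k n) K r *
        algebraMap (PS k n) K (MvPowerSeries.pderiv k i s)) /
      (algebraMap (PS k n) K s) ^ 2 :=
  quotRule_eq _ a r s hs h

theorem dd_comm (i j : Fin n) (a : K) : dd k n i (dd k n j a) = dd k n j (dd k n i a) := by
  obtain ⟨r, s, hs, h⟩ := exists_rep (PS k n) a
  have inj : Function.Injective (algebraMap (PS k n) K) :=
    IsFractionRing.injective (PS k n) K
  have hsK : algebraMap (PS k n) K s ≠ 0 := by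
    rw [Ne, map_eq_zero_iff _ inj]; exact hs
  have hcomm : ∀ g : PS k n, MvPowerSeries.pderiv k i (MvPowerSeries.pderiv k j g) =
      MvPowerSeries.pderiv k j (MvPowerSeries.pderiv k i g) := by
    intro g
    ext e
    simp only [MvPowerSeries.coeff_pderiv]
    by_cases hij : i = j
    · subst hij; rfl
    · rw [add_right_comm, Finsupp.add_apply, Finsupp.add_apply, Finsupp.single_apply,
        Finsupp.single_apply, if_neg hij, if_neg (fun h => hij h.symm), add_zero, add_zero,
        mul_assoc, mul_assoc, mul_comm ((e j : k) + 1)]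
  have e1 : ∀ l : Fin n, dd k n l a = (algebraMap (PS k n) K
      (MvPowerSeries.pderiv k l r * s - r * MvPowerSeries.pderiv k l s)) /
      algebraMap (PS k n) K (s ^ 2) := by
    intro l
    rw [dd_eq l a r s hs h, map_sub, map_mul, map_mul, map_pow]
  have hs2 : s ^ 2 ≠ 0 := pow_ne_zero 2 hs
  have hs2K : algebraMap (PS k n) K (s ^ 2) ≠ 0 := by
    rw [Ne, map_eq_zero_iff _ inj]; exact hs2
  have e2 : ∀ l l' : Fin n, dd k n l (dd k n l' a) =
      (algebraMap (PS k n) K (MvPowerSeries.pderiv k l
        (MvPowerSeries.pderiv k l' r * s - r * MvPowerSeries.pderiv k l' s)) *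
          algebraMap (PS k n) K (s ^ 2) -
        algebraMap (PS k n) K (MvPowerSeries.pderiv k l' r * s -
          r * MvPowerSeries.pderiv k l' s) *
          algebraMap (PS k n) K (MvPowerSeries.pderiv k l (s ^ 2))) /
        (algebraMap (PS k n) K (s ^ 2)) ^ 2 := by
    intro l l'
    rw [e1 l']
    exact dd_eq l _ _ _ hs2 (by field_simp)
  rw [e2 i j, e2 j i]
  congr 1
  rw [← map_mul, ← map_mul, ← map_mul, ← map_mul, ← map_sub, ← map_sub]
  congr 1
  simp only [map_sub, Derivation.leibniz, Derivation.leibniz_pow, smul_eq_mul]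
  rw [hcomm s, hcomm r]
  simp only [nsmul_eq_mul, Nat.add_one_sub_one, pow_one, Nat.cast_ofNat]
  ring

theorem extD_extD (ω : Cochain n K m) : extD k (extD k ω) = 0 := by
  funext S
  exact alt_alt _ dd_comm _

theorem cechD_cechD (ω : Cochain n K m) : cechD k (cechD k ω) = 0 :=
  alt_alt (k := k) (V := Finset (Fin n) → K) _ (fun _ _ _ => rfl) _

theorem cechD_apply (ω : Cochain n K m) (S : Finset (Fin m)) (T : Finset (Fin n)) :
    cechD k ω S T = ∑ i ∈ S, (-1 : k) ^ (S.filter (· < i)).card • ω (S.erase i) T := by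
  have h := congrFun (alt_apply (k := k) (V := Finset (Fin n) → K)
    (fun _ => LinearMap.id) ω S) T
  rw [Finset.sum_apply] at h
  exact h

theorem extD_apply (ω : Cochain n K m) (S : Finset (Fin m)) (T : Finset (Fin n)) :
    extD k ω S T =
      ∑ j ∈ T, (-1 : k) ^ (T.filter (· < j)).card • dd k n j (ω S (T.erase j)) := rfl

theorem sgnD_apply (ω : Cochain n K m) (S : Finset (Fin m)) (T : Finset (Fin n)) :
    sgnD k ω S T = (-1 : k) ^ S.card • ω S T := rfl

theorem totFun_eq (ω : Cochain n K m) : totFun k ω = cechD k ω + sgnD k (extD k ω) := by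
  funext S T
  rw [totFun_apply, Pi.add_apply, Pi.add_apply, cechD_apply, sgnD_apply, extD_apply]

theorem cechD_extD (ω : Cochain n K m) : cechD k (extD k ω) = extD k (cechD k ω) := by
  funext S T
  rw [cechD_apply, extD_apply]
  simp only [extD_apply, cechD_apply, dd_sum, dd_smul, Finset.smul_sum]
  rw [Finset.sum_comm]
  refine Finset.sum_congr rfl fun j _ => Finset.sum_congr rfl fun i _ => ?_
  rw [smul_comm]

theorem cechD_sgnD (ω : Cochain n K m) : cechD k (sgnD k ω) = - sgnD k (cechD k ω) := by
  funext S T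
  rw [Pi.neg_apply, Pi.neg_apply, sgnD_apply, cechD_apply, cechD_apply, Finset.smul_sum,
    ← Finset.sum_neg_distrib]
  refine Finset.sum_congr rfl fun i hi => ?_
  rw [sgnD_apply, Finset.card_erase_of_mem hi, smul_smul, smul_smul, ← neg_smul]
  congr 1
  obtain ⟨c, hc⟩ : ∃ c, S.card = c + 1 := ⟨S.card - 1, by
    have : 0 < S.card := Finset.card_pos.mpr ⟨i, hi⟩
    omega⟩
  rw [hc, Nat.add_sub_cancel]
  ring

theorem extD_sgnD (ω : Cochain n K m) : extD k (sgnD k ω) = sgnD k (extD k ω) := by
  funext S T
  rw [sgnD_apply, extD_apply, extD_apply, Finset.smul_sum]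
  refine Finset.sum_congr rfl fun j _ => ?_
  rw [sgnD_apply, dd_smul, smul_comm]

theorem cechD_add (ω η : Cochain n K m) : cechD k (ω + η) = cechD k ω + cechD k η :=
  (alt (k := k) (V := Finset (Fin n) → K) (fun _ => LinearMap.id)).map_add ω η

theorem extD_add (ω η : Cochain n K m) : extD k (ω + η) = extD k ω + extD k η := by
  funext S
  exact (alt (ddL k n K)).map_add (ω S) (η S)

theorem sgnD_add (ω η : Cochain n K m) : sgnD k (ω + η) = sgnD k ω + sgnD k η := by
  funext S T
  exact smul_add _ _ _

theorem sgnD_zero : sgnD k (0 : Cochain n K m) = 0 := by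
  funext S T
  exact smul_zero _

theorem totFun_totFun (ω : Cochain n K m) : totFun k (totFun k ω) = 0 := by
  rw [totFun_eq, totFun_eq, cechD_add, extD_add, sgnD_add, cechD_cechD, cechD_sgnD, cechD_extD,
    extD_sgnD, extD_extD, sgnD_zero, sgnD_zero]
  abel

theorem dd_mem_Loc {g : PS k n} (hg : g ≠ 0) {a : K} (ha : a ∈ Loc K g) (j : Fin n) :
    dd k n j a ∈ Loc K g := by
  obtain ⟨e, r, h⟩ := ha
  have hge : g ^ e ≠ 0 := pow_ne_zero e hg
  have inj : Function.Injective (algebraMap (PS k n) K) :=
    IsFractionRing.injective (PS k n) K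
  have hgK : algebraMap (PS k n) K (g ^ e) ≠ 0 := by
    rw [Ne, map_eq_zero_iff _ inj]; exact hge
  refine ⟨2 * e, MvPowerSeries.pderiv k j r * g ^ e - r * MvPowerSeries.pderiv k j (g ^ e), ?_⟩
  rw [dd_eq j a r (g ^ e) hge h, map_sub, map_mul, map_mul,
    show g ^ (2 * e) = g ^ e * g ^ e by ring, map_mul]
  field_simp

theorem Loc_erase_le (f : Fin m → PS k n) (S : Finset (Fin m)) (i : Fin m) :
    Loc K (∏ i ∈ S.erase i, f i) ≤ Loc K (∏ i ∈ S, f i) := by
  by_cases hi : i ∈ S
  · rw [← Finset.mul_prod_erase S f hi]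
    exact Loc_le_mul _ _
  · rw [Finset.erase_eq_of_notMem hi]

theorem totFun_mem_Gr (f : Fin m → PS k n) (hf : ∀ i, f i ≠ 0) (l : ℤ) (ω : Cochain n K m)
    (hω : ω ∈ GrPart K f l) : totFun k ω ∈ GrPart K f (l + 1) := by
  intro S T
  rw [totFun_apply]
  constructor
  · refine Submodule.add_mem _ ?_ ?_
    · refine Submodule.sum_mem _ fun i _ => ?_
      exact Submodule.smul_mem _ _ (Loc_erase_le f S i (hω _ _).1)
    · refine Submodule.smul_mem _ _ ?_
      refine Submodule.sum_mem _ fun j _ => ?_
      refine Submodule.smul_mem _ _ ?_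
      exact dd_mem_Loc (Finset.prod_ne_zero_iff.mpr fun i _ => hf i) (hω _ _).1 j
  · intro h
    have h1 : ∑ i ∈ S, (-1 : k) ^ (S.filter (· < i)).card • ω (S.erase i) T = 0 := by
      refine Finset.sum_eq_zero fun i hi => ?_
      rw [(hω (S.erase i) T).2 ?_, smul_zero]
      have : 0 < S.card := Finset.card_pos.mpr ⟨i, hi⟩
      rw [Finset.card_erase_of_mem hi]
      intro h'
      apply h
      omega
    have h2 : ∑ j ∈ T, (-1 : k) ^ (T.filter (· < j)).card • dd k n j (ω S (T.erase j)) = 0 := by
      refine Finset.sum_eq_zero fun j hj => ?_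
      rw [(hω S (T.erase j)).2 ?_, dd_zero, smul_zero]
      have : 0 < T.card := Finset.card_pos.mpr ⟨j, hj⟩
      rw [Finset.card_erase_of_mem hj]
      intro h'
      apply h
      omega
    rw [h1, h2, smul_zero, add_zero]

theorem totFun_mem_Fil (p : ℤ) (ω : Cochain n K m) (hω : ω ∈ Fil k n m K p) :
    totFun k ω ∈ Fil k n m K p := by
  intro S T hT
  rw [totFun_apply]
  have h1 : ∑ i ∈ S, (-1 : k) ^ (S.filter (· < i)).card • ω (S.erase i) T = 0 := by
    refine Finset.sum_eq_zero fun i hi => ?_
    rw [hω (S.erase i) T hT, smul_zero]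
  have h2 : ∑ j ∈ T, (-1 : k) ^ (T.filter (· < j)).card • dd k n j (ω S (T.erase j)) = 0 := by
    refine Finset.sum_eq_zero fun j hj => ?_
    rw [hω S (T.erase j) ?_, dd_zero, smul_zero]
    rw [Finset.card_erase_of_mem hj]
    omega
  rw [h1, h2, smul_zero, add_zero]

variable (k n m K) in
theorem Fil_antitone : Antitone (Fil k n m K) := by
  intro p p' hpp ω hω S T hT
  exact hω S T (lt_of_lt_of_le hT hpp)

end CechDeRham

section QuadLemmas

variable {k : Type*} [Field k]

/-- The involution `0 ↔ 3, 1 ↔ 4, 2 ↔ 5` of the six variables. -/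
def dual : Fin 6 → Fin 6 := ![3, 4, 5, 0, 1, 2]

theorem pderiv_comm {n : ℕ} (i j : Fin n) (g : PS k n) :
    MvPowerSeries.pderiv k i (MvPowerSeries.pderiv k j g) =
      MvPowerSeries.pderiv k j (MvPowerSeries.pderiv k i g) := by
  ext e
  simp only [MvPowerSeries.coeff_pderiv]
  by_cases hij : i = j
  · subst hij; rfl
  · rw [add_right_comm, Finsupp.add_apply, Finsupp.add_apply, Finsupp.single_apply,
      Finsupp.single_apply, if_neg hij, if_neg (fun h => hij h.symm), add_zero, add_zero,
      mul_assoc, mul_assoc, mul_comm ((e j : k) + 1)]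

theorem pderiv_quad (j : Fin 6) :
    MvPowerSeries.pderiv k j (quad k) = MvPowerSeries.X (dual j) := by
  unfold quad dual
  fin_cases j <;>
  simp [Derivation.leibniz]

variable (k)

theorem X_ne_zero' (j : Fin 6) : (MvPowerSeries.X j : PS k 6) ≠ 0 := by
  intro h
  have := congrArg (MvPowerSeries.pderiv k j) h
  rw [MvPowerSeries.pderiv_X_self, map_zero] at this
  exact one_ne_zero this

theorem quad_ne_zero : quad k ≠ 0 := by
  intro h
  have := congrArg (MvPowerSeries.pderiv k 0) h
  rw [pderiv_quad, map_zero] at this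
  exact X_ne_zero' k _ this

end QuadLemmas

end Pool.Agent.HdR
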