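import Pool.Agent.HdR.Complex

set_option autoImplicit false
set_option linter.unusedSectionVars false
set_option linter.unusedSimpArgs false

namespace Pool.Agent.HdR

theorem totD_apply {k : Type*} [Field k] {n m : ℕ}
    {K : Type*} [Field K] [Algebra (PS k n) K] [IsFractionRing (PS k n) K]
    [Algebra k K] [IsScalarTower k (PS k n) K]
    (ω : Cochain n K m) (S : Finset (Fin m)) (T : Finset (Fin n)) :
    totD k n m K ω S T = (∑ i ∈ S, (-1 : k) ^ (S.filter (· < i)).card • ω (S.erase i) T) +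
      (-1 : k) ^ S.card •
        ∑ j ∈ T, (-1 : k) ^ (T.filter (· < j)).card • dd k n j (ω S (T.erase j)) := rfl

/-! ## The quadric and the functional -/

section Quadric

variable (k : Type*) [Field k]

/-- The operator `Δ = ∂_0 ∂_3 + ∂_1 ∂_4 + ∂_2 ∂_5`. -/
noncomputable def lap : PS k 6 →ₗ[k] PS k 6 :=
  (MvPowerSeries.pderiv k 0).toLinearMap ∘ₗ (MvPowerSeries.pderiv k 3).toLinearMap +
  (MvPowerSeries.pderiv k 1).toLinearMap ∘ₗ (MvPowerSeries.pderiv k 4).toLinearMap +
  (MvPowerSeries.pderiv k 2).toLinearMap ∘ₗ (MvPowerSeries.pderiv k 5).toLinearMap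

/-- The Euler operator. -/
noncomputable def euler (P : PS k 6) : PS k 6 :=
  ∑ i : Fin 6, MvPowerSeries.X i * MvPowerSeries.pderiv k i P

variable {k}

theorem lap_apply (P : PS k 6) : lap k P =
    MvPowerSeries.pderiv k 0 (MvPowerSeries.pderiv k 3 P) +
    MvPowerSeries.pderiv k 1 (MvPowerSeries.pderiv k 4 P) +
    MvPowerSeries.pderiv k 2 (MvPowerSeries.pderiv k 5 P) := rfl

theorem lap_quad_mul (P : PS k 6) :
    lap k (quad k * P) = quad k * lap k P + euler k P + 3 * P := by
  have h0 := pderiv_quad (k := k) 0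
  have h1 := pderiv_quad (k := k) 1
  have h2 := pderiv_quad (k := k) 2
  have h3 := pderiv_quad (k := k) 3
  have h4 := pderiv_quad (k := k) 4
  have h5 := pderiv_quad (k := k) 5
  simp only [dual] at h0 h1 h2 h3 h4 h5
  simp only [lap_apply, euler, Fin.sum_univ_six, Derivation.leibniz, smul_eq_mul, map_add,
    h0, h1, h2, h3, h4, h5]
  simp
  ring

theorem lap_euler (P : PS k 6) : lap k (euler k P) = euler k (lap k P) + 2 * lap k P := by
  simp only [lap_apply, euler, Fin.sum_univ_six, Derivation.leibniz, smul_eq_mul, map_add]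
  simp
  simp only [pderiv_comm 1 0, pderiv_comm 2 0, pderiv_comm 3 0, pderiv_comm 4 0, pderiv_comm 5 0,
    pderiv_comm 2 1, pderiv_comm 3 1, pderiv_comm 4 1, pderiv_comm 5 1, pderiv_comm 3 2,
    pderiv_comm 4 2, pderiv_comm 5 2, pderiv_comm 4 3, pderiv_comm 5 3, pderiv_comm 5 4]
  ring

end Quadric


section Functional

variable {k : Type*} [Field k]

theorem lap_X_mul (j : Fin 6) (P : PS k 6) :
    lap k (MvPowerSeries.X j * P) =
      MvPowerSeries.X j * lap k P + MvPowerSeries.pderiv k (dual j) P := by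
  simp only [lap_apply, Derivation.leibniz, smul_eq_mul, map_add, dual]
  fin_cases j <;> simp [pderiv_comm 3 0, pderiv_comm 4 1, pderiv_comm 5 2] <;> ring

theorem lap_pderiv (j : Fin 6) (P : PS k 6) :
    lap k (MvPowerSeries.pderiv k j P) = MvPowerSeries.pderiv k j (lap k P) := by
  simp only [lap_apply, map_add]
  rw [pderiv_comm j 0 (MvPowerSeries.pderiv k 3 P), pderiv_comm j 3 P,
    pderiv_comm j 1 (MvPowerSeries.pderiv k 4 P), pderiv_comm j 4 P,
    pderiv_comm j 2 (MvPowerSeries.pderiv k 5 P), pderiv_comm j 5 P]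

theorem lap_iter_quad_mul (a : ℕ) (P : PS k 6) :
    (lap k)^[a + 1] (quad k * P) = quad k * (lap k)^[a + 1] P +
      ((a : PS k 6) + 1) * euler k ((lap k)^[a] P) +
      (((a : PS k 6) + 1) * ((a : PS k 6) + 3)) * (lap k)^[a] P := by
  induction a with
  | zero =>
    simp only [Function.iterate_succ, Function.iterate_zero, Function.comp_apply, id_eq]
    rw [lap_quad_mul]
    push_cast
    ring
  | succ a ih =>
    rw [Function.iterate_succ_apply', ih, map_add, map_add, lap_quad_mul]
    have e1 : ∀ (c : ℕ) (Q : PS k 6), lap k ((c : PS k 6) * Q) = (c : PS k 6) * lap k Q := by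
      intro c Q
      rw [← nsmul_eq_mul, map_nsmul, nsmul_eq_mul]
    have e2 : lap k (((a : PS k 6) + 1) * euler k ((lap k)^[a] P)) =
        ((a : PS k 6) + 1) * (euler k ((lap k)^[a + 1] P) + 2 * (lap k)^[a + 1] P) := by
      have := e1 (a + 1) (euler k ((lap k)^[a] P))
      push_cast at this
      rw [this, lap_euler, ← Function.iterate_succ_apply' (lap k)]
    have e3 : lap k ((((a : PS k 6) + 1) * ((a : PS k 6) + 3)) * (lap k)^[a] P) =
        (((a : PS k 6) + 1) * ((a : PS k 6) + 3)) * (lap k)^[a + 1] P := by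
      have := e1 ((a + 1) * (a + 3)) ((lap k)^[a] P)
      push_cast at this
      rw [this, ← Function.iterate_succ_apply' (lap k)]
    rw [e2, e3, ← Function.iterate_succ_apply' (lap k)]
    push_cast
    ring

theorem lap_iter_X_mul (a : ℕ) (j : Fin 6) (P : PS k 6) :
    (lap k)^[a + 1] (MvPowerSeries.X j * P) = MvPowerSeries.X j * (lap k)^[a + 1] P +
      ((a : PS k 6) + 1) * (lap k)^[a] (MvPowerSeries.pderiv k (dual j) P) := by
  induction a with
  | zero =>
    simp only [Function.iterate_succ, Function.iterate_zero, Function.comp_apply, id_eq]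
    rw [lap_X_mul]
    push_cast
    ring
  | succ a ih =>
    have e1 : ∀ (c : ℕ) (Q : PS k 6), lap k ((c : PS k 6) * Q) = (c : PS k 6) * lap k Q := by
      intro c Q
      rw [← nsmul_eq_mul, map_nsmul, nsmul_eq_mul]
    have e0 : ∀ b : ℕ, MvPowerSeries.pderiv k (dual j) ((lap k)^[b] P) =
        (lap k)^[b] (MvPowerSeries.pderiv k (dual j) P) := by
      intro b
      induction b with
      | zero => rfl
      | succ b ihb => rw [Function.iterate_succ_apply', Function.iterate_succ_apply', ← lap_pderiv,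
          ihb]
    have e2 : lap k (((a : PS k 6) + 1) * (lap k)^[a] (MvPowerSeries.pderiv k (dual j) P)) =
        ((a : PS k 6) + 1) * (lap k)^[a + 1] (MvPowerSeries.pderiv k (dual j) P) := by
      have := e1 (a + 1) ((lap k)^[a] (MvPowerSeries.pderiv k (dual j) P))
      push_cast at this
      rw [this, ← Function.iterate_succ_apply' (lap k)]
    rw [Function.iterate_succ_apply', ih, map_add, lap_X_mul, e2, e0,
      ← Function.iterate_succ_apply' (lap k)]
    push_cast
    ring

/-- The functional `P ↦ (Δ^a P)(0)`. -/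
noncomputable def Fn (a : ℕ) (P : PS k 6) : k :=
  MvPowerSeries.constantCoeff ((lap k)^[a] P)

theorem lap_iter_add (a : ℕ) (P Q : PS k 6) :
    (lap k)^[a] (P + Q) = (lap k)^[a] P + (lap k)^[a] Q := by
  induction a with
  | zero => rfl
  | succ a ih => rw [Function.iterate_succ_apply', Function.iterate_succ_apply',
      Function.iterate_succ_apply', ih, map_add]

theorem lap_iter_smul (a : ℕ) (c : k) (P : PS k 6) :
    (lap k)^[a] (c • P) = c • (lap k)^[a] P := by
  induction a with
  | zero => rfl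
  | succ a ih => rw [Function.iterate_succ_apply', Function.iterate_succ_apply', ih, map_smul]

theorem Fn_add (a : ℕ) (P Q : PS k 6) : Fn a (P + Q) = Fn a P + Fn a Q := by
  rw [Fn, lap_iter_add, map_add]; rfl

theorem Fn_smul (a : ℕ) (c : k) (P : PS k 6) : Fn a (c • P) = c * Fn a P := by
  rw [Fn, lap_iter_smul, MvPowerSeries.constantCoeff_smul, smul_eq_mul]; rfl

theorem constantCoeff_quad_mul (P : PS k 6) : MvPowerSeries.constantCoeff (quad k * P) = 0 := by
  simp [quad]

theorem constantCoeff_euler (P : PS k 6) : MvPowerSeries.constantCoeff (euler k P) = 0 := by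
  simp [euler]

theorem Fn_quad_mul (a : ℕ) (P : PS k 6) :
    Fn (a + 1) (quad k * P) = (((a : k) + 1) * ((a : k) + 3)) * Fn a P := by
  have h3 : MvPowerSeries.constantCoeff (3 : PS k 6) = (3 : k) :=
    map_ofNat (MvPowerSeries.constantCoeff (σ := Fin 6) (R := k)) 3
  rw [Fn, lap_iter_quad_mul, map_add, map_add, constantCoeff_quad_mul, map_mul,
    constantCoeff_euler, map_mul, map_mul, map_add, map_add, map_natCast, map_one, h3]
  simp [Fn]

theorem Fn_X_mul (a : ℕ) (j : Fin 6) (P : PS k 6) :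
    Fn (a + 1) (MvPowerSeries.X j * P) =
      ((a : k) + 1) * Fn a (MvPowerSeries.pderiv k (dual j) P) := by
  rw [Fn, lap_iter_X_mul, map_add, map_mul]
  simp [Fn]

theorem Fn_zero_quad_mul (P : PS k 6) : Fn 0 (quad k * P) = 0 := constantCoeff_quad_mul P

/-- The functional kills numerators of the derivatives `∂_j` of elements of `R_q`. -/
theorem Fn_deriv (a : ℕ) (j : Fin 6) (P : PS k 6) :
    Fn (a + 1) (quad k * MvPowerSeries.pderiv k j P) =
      ((a : k) + 3) * Fn (a + 1) (MvPowerSeries.X (dual j) * P) := by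
  have hdd : dual (dual j) = j := by fin_cases j <;> rfl
  rw [Fn_quad_mul, Fn_X_mul, hdd]
  ring

theorem Fn_quad_pow_mul (a b : ℕ) (hb : a < b) (P : PS k 6) : Fn a (quad k ^ b * P) = 0 := by
  induction a generalizing b with
  | zero =>
    obtain ⟨c, rfl⟩ : ∃ c, b = c + 1 := ⟨b - 1, by omega⟩
    rw [pow_succ', mul_assoc, Fn_zero_quad_mul]
  | succ a ih =>
    obtain ⟨c, rfl⟩ : ∃ c, b = c + 1 := ⟨b - 1, by omega⟩
    rw [pow_succ', mul_assoc, Fn_quad_mul, ih c (by omega), mul_zero]

theorem Fn_quad_pow_ne_zero [CharZero k] (a : ℕ) : Fn a (quad k ^ a) ≠ 0 := by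
  induction a with
  | zero => simp [Fn]
  | succ a ih =>
    rw [pow_succ', Fn_quad_mul]
    refine mul_ne_zero (mul_ne_zero ?_ ?_) ih
    · exact_mod_cast Nat.succ_ne_zero a
    · have : ((a + 3 : ℕ) : k) ≠ 0 := Nat.cast_ne_zero.mpr (by omega)
      push_cast at this
      exact this

end Functional


/-! ## The counterexample -/

section Main

variable (k : Type*) [Field k]

variable {k}
variable {K : Type*} [Field K] [Algebra (PS k 6) K] [IsFractionRing (PS k 6) K]
  [Algebra k K] [IsScalarTower k (PS k 6) K]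

theorem algMap_inj : Function.Injective (algebraMap (PS k 6) K) :=
  IsFractionRing.injective (PS k 6) K

theorem algMap_ne_zero {g : PS k 6} (hg : g ≠ 0) : algebraMap (PS k 6) K g ≠ 0 := by
  rw [Ne, map_eq_zero_iff _ algMap_inj]; exact hg

theorem X_pow_dvd_of_dvd_mul (N M : ℕ) (r : PS k 6)
    (h : (MvPowerSeries.X 3 : PS k 6) ^ N ∣ r * MvPowerSeries.X 4 ^ M) :
    (MvPowerSeries.X 3 : PS k 6) ^ N ∣ r := by
  rw [MvPowerSeries.X_pow_dvd_iff] at h ⊢
  intro m hm
  have h1 := h (m + Finsupp.single 4 M) (by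
    rw [Finsupp.add_apply, Finsupp.single_apply, if_neg (by decide), add_zero]; exact hm)
  rw [MvPowerSeries.X_pow_eq, MvPowerSeries.coeff_add_mul_monomial, mul_one] at h1
  exact h1

/-- `R_{q x_3} ∩ R_{q x_4} = R_q`. -/
theorem Loc_inter {a : K} (h0 : a ∈ Loc K (quad k * MvPowerSeries.X 3))
    (h1 : a ∈ Loc K (quad k * MvPowerSeries.X 4)) : a ∈ Loc K (quad k) := by
  obtain ⟨e, r, hr⟩ := h0
  obtain ⟨e', r', hr'⟩ := h1
  have key : r * quad k ^ e' * MvPowerSeries.X 4 ^ e' = r' * quad k ^ e * MvPowerSeries.X 3 ^ e := by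
    apply algMap_inj (K := K)
    rw [map_mul, map_mul, ← hr, map_mul, map_mul, ← hr']
    simp only [map_mul, map_pow]
    ring
  have hd : (MvPowerSeries.X 3 : PS k 6) ^ e ∣ r * quad k ^ e' := by
    apply X_pow_dvd_of_dvd_mul e e'
    rw [key]
    exact dvd_mul_left _ _
  obtain ⟨s, hs⟩ := hd
  refine ⟨e + e', s, ?_⟩
  have hX : algebraMap (PS k 6) K (MvPowerSeries.X 3 ^ e) ≠ 0 :=
    algMap_ne_zero (pow_ne_zero e (X_ne_zero' k 3))
  apply mul_left_cancel₀ hX
  rw [← map_mul _ _ s, ← hs, map_mul, ← hr]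
  simp only [map_mul, map_pow]
  ring

theorem dd_inv {g : PS k 6} (hg : g ≠ 0) (j : Fin 6) :
    dd k 6 j (algebraMap (PS k 6) K g)⁻¹ =
      - algebraMap (PS k 6) K (MvPowerSeries.pderiv k j g) /
        (algebraMap (PS k 6) K g) ^ 2 := by
  have hgK := algMap_ne_zero (K := K) hg
  rw [dd_eq j (algebraMap (PS k 6) K g)⁻¹ 1 g hg
    (by rw [inv_mul_cancel₀ hgK, map_one]), Derivation.map_one_eq_zero, map_zero, map_one]
  ring

/-- `R_q` has no solution of `c q^{-3} = b + ∑_j ± ∂_j a_j` with `b ∈ R`, `a_j ∈ R_q`, `c ≠ 0`. -/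
theorem not_exact [CharZero k] (c : k) (hc : c ≠ 0) (b : PS k 6) (a : Fin 6 → K)
    (ha : ∀ j, a j ∈ Loc K (quad k))
    (h : c • ((algebraMap (PS k 6) K (quad k)) ^ 3)⁻¹ =
      algebraMap (PS k 6) K b + ∑ j, dd k 6 j (a j)) : False := by
  choose e r hr using ha
  -- common exponent
  set M := ∑ j, e j with hM
  have hq := quad_ne_zero k
  have hqK := algMap_ne_zero (K := K) hq
  have hle : ∀ j, e j ≤ M := fun j => Finset.single_le_sum (fun _ _ => Nat.zero_le _) (Finset.mem_univ j)
  -- new numerators over q^(M+3)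
  let P : Fin 6 → PS k 6 := fun j => r j * quad k ^ (M + 3 - e j)
  have hP : ∀ j, a j * algebraMap (PS k 6) K (quad k ^ (M + 3)) =
      algebraMap (PS k 6) K (P j) := by
    intro j
    have : M + 3 = e j + (M + 3 - e j) := by have := hle j; omega
    rw [this, pow_add, map_mul, ← mul_assoc, hr j, ← map_mul]
  have hd : ∀ j, dd k 6 j (a j) * algebraMap (PS k 6) K (quad k ^ (M + 4)) =
      algebraMap (PS k 6) K (quad k * MvPowerSeries.pderiv k j (P j) -
        ((M : PS k 6) + 3) * (MvPowerSeries.X (dual j) * P j)) := by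
    intro j
    rw [dd_eq j (a j) (P j) (quad k ^ (M + 3)) (pow_ne_zero _ hq) (hP j), Derivation.leibniz_pow, pderiv_quad, smul_eq_mul, nsmul_eq_mul,
      show M + 3 - 1 = M + 2 by omega]
    simp only [map_mul, map_pow, map_sub, map_add, map_natCast, Nat.cast_add, Nat.cast_ofNat]
    have h3 : algebraMap (PS k 6) K 3 = 3 := map_ofNat _ 3
    rw [h3]
    field_simp
    ring
  have h2 := congrArg (fun x => x * algebraMap (PS k 6) K (quad k ^ (M + 4))) h
  beta_reduce at h2
  rw [add_mul, Finset.sum_mul, Finset.sum_congr rfl (fun j _ => hd j), ← map_mul, ← map_sum,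
    ← map_add] at h2
  have h3 : c • ((algebraMap (PS k 6) K (quad k)) ^ 3)⁻¹ *
      algebraMap (PS k 6) K (quad k ^ (M + 4)) =
      algebraMap (PS k 6) K (c • quad k ^ (M + 1)) := by
    rw [algebraMap_smul', Algebra.smul_mul_assoc]
    congr 1
    simp only [map_pow]
    field_simp
    ring
  rw [h3] at h2
  have h4 := algMap_inj h2
  have h5 := congrArg (Fn (M + 1)) h4
  rw [Fn_smul, Fn_add] at h5
  have h6 : Fn (M + 1) (b * quad k ^ (M + 4)) = 0 := by
    rw [mul_comm]; exact Fn_quad_pow_mul _ _ (by omega) _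
  have hsum : ∀ (s : Finset (Fin 6)) (g : Fin 6 → PS k 6),
      Fn (M + 1) (∑ j ∈ s, g j) = ∑ j ∈ s, Fn (M + 1) (g j) := by
    intro s g
    classical
    induction s using Finset.induction_on with
    | empty =>
      have := Fn_smul (M + 1) (0 : k) (0 : PS k 6)
      simpa using this
    | insert i s hi ih => rw [Finset.sum_insert hi, Finset.sum_insert hi, Fn_add, ih]
  have h7 : ∀ j, Fn (M + 1) (quad k * MvPowerSeries.pderiv k j (P j) -
        ((M : PS k 6) + 3) * (MvPowerSeries.X (dual j) * P j)) = 0 := by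
    intro j
    have e1 : quad k * MvPowerSeries.pderiv k j (P j) -
        ((M : PS k 6) + 3) * (MvPowerSeries.X (dual j) * P j) =
        quad k * MvPowerSeries.pderiv k j (P j) +
          (-((M : k) + 3)) • (MvPowerSeries.X (dual j) * P j) := by
      rw [Algebra.smul_def]
      simp only [map_neg, map_add, map_natCast]
      have h3 : algebraMap k (PS k 6) 3 = 3 := map_ofNat _ 3
      rw [h3]
      ring
    rw [e1, Fn_add, Fn_smul, Fn_deriv]
    ring
  rw [h6, hsum, Finset.sum_eq_zero (fun j _ => h7 j), add_zero] at h5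
  exact mul_ne_zero hc (Fn_quad_pow_ne_zero (M + 1)) h5

end Main


section Final

variable (k : Type*) [Field k] (K : Type*) [Field K] [Algebra (PS k 6) K]
  [IsFractionRing (PS k 6) K] [Algebra k K] [IsScalarTower k (PS k 6) K]

/-- Short name for the embedding `R → Frac R`. -/
noncomputable def io (g : PS k 6) : K := algebraMap (PS k 6) K g

/-- The cochain `z = z^{4,2} + z^{5,1}` representing a class in `E_2^{4,2}`. -/
noncomputable def zz : Cochain 6 K 2 := fun S T =>
  if S = {0, 1} ∧ T = {2, 3, 4, 5} then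
    (io k K (quad k * (MvPowerSeries.X 3 * MvPowerSeries.X 4)))⁻¹
  else if S = {0} ∧ T = {1, 2, 3, 4, 5} then
    - (io k K (quad k ^ 2 * MvPowerSeries.X 3))⁻¹
  else if S = {1} ∧ T = {0, 2, 3, 4, 5} then
    (io k K (quad k ^ 2 * MvPowerSeries.X 4))⁻¹
  else 0

variable {k K}

theorem quadX_ne (j : Fin 6) (e : ℕ) : quad k ^ e * MvPowerSeries.X j ≠ 0 :=
  mul_ne_zero (pow_ne_zero _ (quad_ne_zero k)) (X_ne_zero' k j)

theorem quadXX_ne : quad k * (MvPowerSeries.X 3 * MvPowerSeries.X 4) ≠ 0 :=
  mul_ne_zero (quad_ne_zero k) (mul_ne_zero (X_ne_zero' k 3) (X_ne_zero' k 4))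

theorem subsets2 (S : Finset (Fin 2)) : S = ∅ ∨ S = {0} ∨ S = {1} ∨ S = {0, 1} := by
  revert S; decide

theorem zz_empty (T : Finset (Fin 6)) : zz k K ∅ T = 0 := by
  unfold zz
  rw [if_neg (fun h => absurd h.1 (by decide)), if_neg (fun h => absurd h.1 (by decide)),
    if_neg (fun h => absurd h.1 (by decide))]

theorem zz_zero (T : Finset (Fin 6)) : zz k K {0} T =
    if T = {1, 2, 3, 4, 5} then - (io k K (quad k ^ 2 * MvPowerSeries.X 3))⁻¹ else 0 := by
  unfold zz
  rw [if_neg (fun h => absurd h.1 (by decide))]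
  by_cases hT : T = {1, 2, 3, 4, 5}
  · rw [if_pos ⟨rfl, hT⟩, if_pos hT]
  · rw [if_neg (fun h => hT h.2), if_neg (fun h => absurd h.1 (by decide)), if_neg hT]

theorem zz_one (T : Finset (Fin 6)) : zz k K {1} T =
    if T = {0, 2, 3, 4, 5} then (io k K (quad k ^ 2 * MvPowerSeries.X 4))⁻¹ else 0 := by
  unfold zz
  rw [if_neg (fun h => absurd h.1 (by decide)), if_neg (fun h => absurd h.1 (by decide))]
  by_cases hT : T = {0, 2, 3, 4, 5}
  · rw [if_pos ⟨rfl, hT⟩, if_pos hT]
  · rw [if_neg (fun h => hT h.2), if_neg hT]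

theorem zz_both (T : Finset (Fin 6)) : zz k K {0, 1} T =
    if T = {2, 3, 4, 5} then (io k K (quad k * (MvPowerSeries.X 3 * MvPowerSeries.X 4)))⁻¹ else 0 := by
  unfold zz
  by_cases hT : T = {2, 3, 4, 5}
  · rw [if_pos ⟨rfl, hT⟩, if_pos hT]
  · rw [if_neg (fun h => hT h.2), if_neg (fun h => absurd h.1 (by decide)),
      if_neg (fun h => absurd h.1 (by decide)), if_neg hT]

theorem zz_mem_Gr : zz k K ∈ GrPart K (gens k) 6 := by
  intro S T
  rcases subsets2 S with rfl | rfl | rfl | rfl
  · rw [zz_empty]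
    exact ⟨Submodule.zero_mem _, fun _ => rfl⟩
  · rw [zz_zero]
    split_ifs with hT
    · refine ⟨⟨2, -MvPowerSeries.X 3, ?_⟩, fun h => absurd ?_ h⟩
      · have h1 := algMap_ne_zero (K := K) (quadX_ne (k := k) 3 2)
        rw [Finset.prod_singleton]
        change - (algebraMap (PS k 6) K (quad k ^ 2 * MvPowerSeries.X 3))⁻¹ *
          algebraMap (PS k 6) K ((quad k * MvPowerSeries.X 3) ^ 2) = _
        rw [show (quad k * MvPowerSeries.X 3) ^ 2 =
          (quad k ^ 2 * MvPowerSeries.X 3) * MvPowerSeries.X 3 by ring,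
          map_mul _ (quad k ^ 2 * MvPowerSeries.X 3) (MvPowerSeries.X 3),
          map_neg, neg_mul, inv_mul_cancel_left₀ h1]
      · subst hT; rfl
    · exact ⟨Submodule.zero_mem _, fun _ => rfl⟩
  · rw [zz_one]
    split_ifs with hT
    · refine ⟨⟨2, MvPowerSeries.X 4, ?_⟩, fun h => absurd ?_ h⟩
      · have h1 := algMap_ne_zero (K := K) (quadX_ne (k := k) 4 2)
        rw [Finset.prod_singleton]
        change (algebraMap (PS k 6) K (quad k ^ 2 * MvPowerSeries.X 4))⁻¹ *
          algebraMap (PS k 6) K ((quad k * MvPowerSeries.X 4) ^ 2) = _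
        rw [show (quad k * MvPowerSeries.X 4) ^ 2 =
          (quad k ^ 2 * MvPowerSeries.X 4) * MvPowerSeries.X 4 by ring,
          map_mul _ (quad k ^ 2 * MvPowerSeries.X 4) (MvPowerSeries.X 4),
          inv_mul_cancel_left₀ h1]
      · subst hT; rfl
    · exact ⟨Submodule.zero_mem _, fun _ => rfl⟩
  · rw [zz_both]
    split_ifs with hT
    · refine ⟨⟨1, quad k, ?_⟩, fun h => absurd ?_ h⟩
      · have h1 := algMap_ne_zero (K := K) (quadXX_ne (k := k))
        rw [Finset.prod_pair (by decide), pow_one]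
        change (algebraMap (PS k 6) K (quad k * (MvPowerSeries.X 3 * MvPowerSeries.X 4)))⁻¹ *
          algebraMap (PS k 6) K
            ((quad k * MvPowerSeries.X 3) * (quad k * MvPowerSeries.X 4)) = _
        rw [show (quad k * MvPowerSeries.X 3) * (quad k * MvPowerSeries.X 4) =
          (quad k * (MvPowerSeries.X 3 * MvPowerSeries.X 4)) * quad k by ring,
          map_mul _ _ (quad k)]
        field_simp
      · subst hT; rfl
    · exact ⟨Submodule.zero_mem _, fun _ => rfl⟩

theorem zz_mem_Fil : zz k K ∈ Fil k 6 2 K 4 := by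
  intro S T hT
  rcases subsets2 S with rfl | rfl | rfl | rfl
  · exact zz_empty T
  · rw [zz_zero, if_neg]
    rintro rfl
    exact absurd hT (by decide)
  · rw [zz_one, if_neg]
    rintro rfl
    exact absurd hT (by decide)
  · rw [zz_both, if_neg]
    rintro rfl
    exact absurd hT (by decide)

/-- `∂_1 (q x_3 x_4)^{-1} = - (q^2 x_3)^{-1}`. -/
theorem dd_one_both : dd k 6 1 (io k K (quad k * (MvPowerSeries.X 3 * MvPowerSeries.X 4)))⁻¹ =
    - (io k K (quad k ^ 2 * MvPowerSeries.X 3))⁻¹ := by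
  have hq := algMap_ne_zero (K := K) (quad_ne_zero k)
  have h3 := algMap_ne_zero (K := K) (X_ne_zero' k 3)
  have h4 := algMap_ne_zero (K := K) (X_ne_zero' k 4)
  have e : MvPowerSeries.pderiv k 1 (quad k * (MvPowerSeries.X 3 * MvPowerSeries.X 4)) =
      MvPowerSeries.X 4 * (MvPowerSeries.X 3 * MvPowerSeries.X 4) := by
    have := pderiv_quad (k := k) 1
    simp only [dual] at this
    simp [Derivation.leibniz, this]
    ring
  change dd k 6 1 (algebraMap (PS k 6) K _)⁻¹ = - (algebraMap (PS k 6) K _)⁻¹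
  rw [dd_inv quadXX_ne, e]
  simp only [map_mul, map_pow]
  field_simp

/-- `∂_0 (q x_3 x_4)^{-1} = - (q^2 x_4)^{-1}`. -/
theorem dd_zero_both : dd k 6 0 (io k K (quad k * (MvPowerSeries.X 3 * MvPowerSeries.X 4)))⁻¹ =
    - (io k K (quad k ^ 2 * MvPowerSeries.X 4))⁻¹ := by
  have hq := algMap_ne_zero (K := K) (quad_ne_zero k)
  have h3 := algMap_ne_zero (K := K) (X_ne_zero' k 3)
  have h4 := algMap_ne_zero (K := K) (X_ne_zero' k 4)
  have e : MvPowerSeries.pderiv k 0 (quad k * (MvPowerSeries.X 3 * MvPowerSeries.X 4)) =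
      MvPowerSeries.X 3 * (MvPowerSeries.X 3 * MvPowerSeries.X 4) := by
    have := pderiv_quad (k := k) 0
    simp only [dual] at this
    simp [Derivation.leibniz, this]
    ring
  change dd k 6 0 (algebraMap (PS k 6) K _)⁻¹ = - (algebraMap (PS k 6) K _)⁻¹
  rw [dd_inv quadXX_ne, e]
  simp only [map_mul, map_pow]
  field_simp

/-- `∂_0 (- (q^2 x_3)^{-1}) = 2 q^{-3}`. -/
theorem dd_zero_zero : dd k 6 0 (- (io k K (quad k ^ 2 * MvPowerSeries.X 3))⁻¹) =
    (2 : k) • ((algebraMap (PS k 6) K (quad k)) ^ 3)⁻¹ := by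
  have hq := algMap_ne_zero (K := K) (quad_ne_zero k)
  have h3 := algMap_ne_zero (K := K) (X_ne_zero' k 3)
  have e : MvPowerSeries.pderiv k 0 (quad k ^ 2 * MvPowerSeries.X 3) =
      2 * (quad k * (MvPowerSeries.X 3 * MvPowerSeries.X 3)) := by
    have := pderiv_quad (k := k) 0
    simp only [dual] at this
    simp [Derivation.leibniz, Derivation.leibniz_pow, this]
    ring
  rw [dd_neg]
  change - dd k 6 0 (algebraMap (PS k 6) K _)⁻¹ = _
  rw [dd_inv (quadX_ne 3 2), e]
  have h2 : algebraMap (PS k 6) K 2 = 2 := map_ofNat _ 2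
  have h2' : ∀ x : K, (2 : k) • x = 2 * x := by
    intro x
    rw [two_smul, two_mul]
  rw [h2']
  simp only [map_mul, map_pow, h2]
  field_simp

end Final


section Conclusion

variable {k : Type*} [Field k] {K : Type*} [Field K] [Algebra (PS k 6) K]
  [IsFractionRing (PS k 6) K] [Algebra k K] [IsScalarTower k (PS k 6) K]

theorem erase_eq_iff (T U : Finset (Fin 6)) (j : Fin 6) (hj : j ∈ T) :
    T.erase j = U ↔ T = insert j U ∧ j ∉ U := by
  constructor
  · rintro rfl
    exact ⟨(Finset.insert_erase hj).symm, Finset.notMem_erase j T⟩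
  · rintro ⟨rfl, h⟩
    exact Finset.erase_insert h

theorem D_zz_mem_Fil : totD k 6 2 K (zz k K) ∈ Fil k 6 2 K 6 := by
  intro S T hT
  have hT' : T.card < 6 := by exact_mod_cast hT
  rw [totD_apply]
  rcases subsets2 S with rfl | rfl | rfl | rfl
  · rw [Finset.sum_empty, zero_add, Finset.sum_eq_zero, smul_zero]
    intro j _
    rw [zz_empty, dd_zero, smul_zero]
  · rw [Finset.sum_singleton, show ({0} : Finset (Fin 2)).erase 0 = ∅ by decide, zz_empty, smul_zero,
      zero_add, Finset.sum_eq_zero, smul_zero]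
    intro j hj
    rw [zz_zero, if_neg, dd_zero, smul_zero]
    intro h
    have := congrArg Finset.card h
    rw [Finset.card_erase_of_mem hj, show ({1, 2, 3, 4, 5} : Finset (Fin 6)).card = 5 by decide] at this
    omega
  · rw [Finset.sum_singleton, show ({1} : Finset (Fin 2)).erase 1 = ∅ by decide, zz_empty, smul_zero,
      zero_add, Finset.sum_eq_zero, smul_zero]
    intro j hj
    rw [zz_one, if_neg, dd_zero, smul_zero]
    intro h
    have := congrArg Finset.card h
    rw [Finset.card_erase_of_mem hj, show ({0, 2, 3, 4, 5} : Finset (Fin 6)).card = 5 by decide] at this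
    omega
  · rw [Finset.sum_pair (by decide), show ({0, 1} : Finset (Fin 2)).erase 0 = {1} by decide,
      show ({0, 1} : Finset (Fin 2)).erase 1 = {0} by decide,
      show (({0, 1} : Finset (Fin 2)).filter (· < 0)).card = 0 by decide,
      show (({0, 1} : Finset (Fin 2)).filter (· < 1)).card = 1 by decide,
      show ({0, 1} : Finset (Fin 2)).card = 2 by decide, pow_zero, pow_one, one_smul,
      zz_one, zz_zero]
    simp only [zz_both]
    by_cases h0 : T = {0, 2, 3, 4, 5}
    · subst h0
      rw [if_pos rfl, if_neg (by decide), Finset.sum_eq_single_of_mem 0 (by decide)]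
      · rw [if_pos (by decide), dd_zero_both,
          show (({0, 2, 3, 4, 5} : Finset (Fin 6)).filter (· < 0)).card = 0 by decide]
        simp
      · intro j hj hj0
        rw [if_neg, dd_zero, smul_zero]
        intro h
        have h0' : (0 : Fin 6) ∈ ({0, 2, 3, 4, 5} : Finset (Fin 6)).erase j :=
          Finset.mem_erase.mpr ⟨fun h => hj0 h.symm, by decide⟩
        rw [h] at h0'
        exact absurd h0' (by decide)
    · rw [if_neg h0]
      by_cases h1 : T = {1, 2, 3, 4, 5}
      · subst h1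
        rw [if_pos rfl, Finset.sum_eq_single_of_mem 1 (by decide)]
        · rw [if_pos (by decide), dd_one_both,
            show (({1, 2, 3, 4, 5} : Finset (Fin 6)).filter (· < 1)).card = 0 by decide]
          simp
        · intro j hj hj0
          rw [if_neg, dd_zero, smul_zero]
          intro h
          have h0' : (1 : Fin 6) ∈ ({1, 2, 3, 4, 5} : Finset (Fin 6)).erase j :=
            Finset.mem_erase.mpr ⟨fun h => hj0 h.symm, by decide⟩
          rw [h] at h0'
          exact absurd h0' (by decide)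
      · rw [if_neg h1, smul_zero, add_zero, zero_add, Finset.sum_eq_zero, smul_zero]
        intro j hj
        rw [if_neg, dd_zero, smul_zero]
        intro h
        obtain ⟨h2, h3⟩ := (erase_eq_iff T _ j hj).mp h
        have h4 : j = 0 ∨ j = 1 := by
          revert h3; clear h h2 hj; revert j; decide
        rcases h4 with rfl | rfl
        · exact h0 h2
        · exact h1 h2

variable (k K) in
theorem zz_mem_Z : zz k K ∈ (hodgeDeRham K (gens k) (gens_ne_zero k)).Z 2 4 6 := by
  rw [FilteredComplex.mem_Z]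
  exact ⟨zz_mem_Gr, zz_mem_Fil, D_zz_mem_Fil⟩

theorem D_zz_zero_univ : totD k 6 2 K (zz k K) {0} Finset.univ =
    - ((2 : k) • ((algebraMap (PS k 6) K (quad k)) ^ 3)⁻¹) := by
  rw [totD_apply, Finset.sum_singleton, show ({0} : Finset (Fin 2)).erase 0 = ∅ by decide,
    zz_empty, smul_zero, zero_add, Finset.card_singleton, pow_one,
    Finset.sum_eq_single_of_mem 0 (Finset.mem_univ _)]
  · rw [zz_zero, if_pos (by decide), dd_zero_zero,
      show ((Finset.univ : Finset (Fin 6)).filter (· < 0)).card = 0 by decide]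
    simp
  · intro j _ hj
    rw [zz_zero, if_neg, dd_zero, smul_zero]
    intro h
    have h0' : (0 : Fin 6) ∈ (Finset.univ : Finset (Fin 6)).erase j :=
      Finset.mem_erase.mpr ⟨fun h => hj h.symm, Finset.mem_univ _⟩
    rw [h] at h0'
    exact absurd h0' (by decide)

/-- `d_2 : E_2^{4,2} → E_2^{6,1}` is nonzero. -/
theorem d2_ne_zero (k : Type*) [Field k] [CharZero k] (K : Type*) [Field K]
    [Algebra (PS k 6) K] [IsFractionRing (PS k 6) K] [Algebra k K] [IsScalarTower k (PS k 6) K] :
    (hodgeDeRham K (gens k) (gens_ne_zero k)).d 2 4 6 ≠ 0 := by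
  intro h
  rw [FilteredComplex.d_eq_zero_iff] at h
  obtain ⟨u, hu, v, hv, huv⟩ := Submodule.mem_sup.mp (h _ (zz_mem_Z k K))
  obtain ⟨w, hw, rfl⟩ := hv
  rw [FilteredComplex.mem_Z] at hu
  have e1 : (4 : ℤ) + 2 - 2 + 1 = 5 := by norm_num
  have e2 : (6 : ℤ) + 1 - 1 = 6 := by norm_num
  rw [e1, e2] at hw
  have hw' := (FilteredComplex.mem_Z _).mp hw
  obtain ⟨hwG, hwF, hwD⟩ := hw'
  change w ∈ GrPart K (gens k) 6 at hwG
  change w ∈ Fil k 6 2 K 5 at hwF
  change totD k 6 2 K w ∈ Fil k 6 2 K (5 + (2 - 1)) at hwD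
  change u + totD k 6 2 K w = totD k 6 2 K (zz k K) at huv
  have hu0 : u = 0 := by
    funext S T
    refine hu.2.1 S T ?_
    have : T.card ≤ 6 := by simpa using Finset.card_le_univ T
    omega
  rw [hu0, zero_add] at huv
  -- the Čech condition in de Rham degree 5
  have hC : ∀ T : Finset (Fin 6), T.card = 5 → w {1} T = w {0} T := by
    intro T hT
    have h1 := hwD {0, 1} T (by rw [hT]; norm_num)
    rw [totD_apply, Finset.sum_pair (by decide), show ({0, 1} : Finset (Fin 2)).erase 0 = {1} by decide,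
      show ({0, 1} : Finset (Fin 2)).erase 1 = {0} by decide,
      show (({0, 1} : Finset (Fin 2)).filter (· < 0)).card = 0 by decide,
      show (({0, 1} : Finset (Fin 2)).filter (· < 1)).card = 1 by decide, pow_zero, pow_one, one_smul,
      Finset.sum_eq_zero (s := T), smul_zero, add_zero] at h1
    · rw [neg_smul, one_smul] at h1
      exact add_neg_eq_zero.mp h1
    · intro j hj
      rw [hwF {0, 1} (T.erase j) (by rw [Finset.card_erase_of_mem hj, hT]; norm_num), dd_zero,
        smul_zero]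
  have hcard : ∀ j : Fin 6, (Finset.univ.erase j).card = 5 := by decide
  have hL : ∀ j : Fin 6, w {0} (Finset.univ.erase j) ∈ Loc K (quad k) := by
    intro j
    have g0 := (hwG {0} (Finset.univ.erase j)).1
    have g1 := (hwG {1} (Finset.univ.erase j)).1
    rw [hC _ (hcard j)] at g1
    rw [Finset.prod_singleton] at g0 g1
    exact Loc_inter g0 g1
  obtain ⟨e, b, hb⟩ := (hwG ∅ Finset.univ).1
  rw [Finset.prod_empty, one_pow, map_one, mul_one] at hb
  have key := D_zz_zero_univ (k := k) (K := K)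
  rw [← huv, totD_apply, Finset.sum_singleton, show ({0} : Finset (Fin 2)).erase 0 = ∅ by decide,
    show (({0} : Finset (Fin 2)).filter (· < 0)).card = 0 by decide, pow_zero, one_smul, hb,
    Finset.card_singleton, pow_one] at key
  refine not_exact (k := k) 2 two_ne_zero (-b)
    (fun j => (-1 : k) ^ ((Finset.univ : Finset (Fin 6)).filter (· < j)).card •
      w {0} (Finset.univ.erase j)) (fun j => Submodule.smul_mem _ _ (hL j)) ?_
  have key' := congrArg Neg.neg key
  rw [neg_neg] at key'
  rw [← key', map_neg, neg_add, neg_smul, neg_neg, one_smul]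
  congr 1
  refine Finset.sum_congr rfl fun j _ => ?_
  rw [dd_smul]

end Conclusion


end Pool.Agent.HdR
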